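import Mathlib

set_option autoImplicit false

namespace Pool.Agent.Results.MP_ba261c_co.DoublyIrreducible

universe u

/-- `R 0, ..., R (t-1)` are linear orders on `α` whose intersection is the order of `α`
(in particular each `R i` is a linear extension of the order of `α`). -/
def IsRealizer {α : Type u} [PartialOrder α] {t : ℕ} (R : Fin t → α → α → Prop) : Prop :=
  (∀ i, IsLinearOrder α (R i)) ∧ ∀ a b : α, a ≤ b ↔ ∀ i, R i a b

/-- The Dushnik-Miller dimension: the least positive number of linear extensions whose
intersection is the order. -/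
noncomputable def dimension (α : Type u) [PartialOrder α] : ℕ :=
  sInf {t : ℕ | 0 < t ∧ ∃ R : Fin t → α → α → Prop, IsRealizer R}

/-- Deleting any single element lowers the dimension. -/
def IrreduciblePoset (α : Type u) [PartialOrder α] : Prop :=
  ∀ x : α, dimension {y : α // y ≠ x} < dimension α

/-- `a = sup S` implies `a ∈ S`, for every set `S` (the empty set allowed). -/
def JoinIrreducible {α : Type u} [PartialOrder α] (a : α) : Prop :=
  ∀ S : Set α, IsLUB S a → a ∈ S

/-- `a = inf S` implies `a ∈ S`, for every set `S` (the empty set allowed). -/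
def MeetIrreducible {α : Type u} [PartialOrder α] (a : α) : Prop :=
  ∀ S : Set α, IsGLB S a → a ∈ S

/-- `(a, b)` is a critical pair: `a`, `b` are incomparable, every element strictly above `a` is
strictly above `b`, and every element strictly below `b` is strictly below `a`. -/
def CriticalPair {α : Type u} [PartialOrder α] (a b : α) : Prop :=
  ¬ a ≤ b ∧ ¬ b ≤ a ∧ (∀ z, a < z → b < z) ∧ (∀ z, z < b → z < a)

section aux

variable {α : Type u} [PartialOrder α]

/-- restriction of a realizer to a subposet -/
theorem restrict {t : ℕ} {R : Fin t → α → α → Prop} (hR : IsRealizer R) (x : α) :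
    IsRealizer (α := {y : α // y ≠ x}) (fun i a b => R i a.1 b.1) := by
  refine ⟨fun i => ?_, fun a b => hR.2 a.1 b.1⟩
  have h := hR.1 i
  exact
    { refl := fun a => h.refl a.1
      trans := fun a b c hab hbc => h.trans a.1 b.1 c.1 hab hbc
      antisymm := fun a b hab hba => Subtype.ext (h.antisymm a.1 b.1 hab hba)
      total := fun a b => h.total a.1 b.1 }

open Classical in
/-- collapse `x` onto `c` -/
noncomputable def coll (x c : α) (hc : c ≠ x) (a : α) : {y : α // y ≠ x} :=
  if h : a = x then ⟨c, hc⟩ else ⟨a, h⟩

omit [PartialOrder α] in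
theorem coll_self (x c : α) (hc : c ≠ x) : coll x c hc x = ⟨c, hc⟩ := by
  simp [coll]

omit [PartialOrder α] in
theorem coll_ne (x c : α) (hc : c ≠ x) (a : α) (ha : a ≠ x) : coll x c hc a = ⟨a, ha⟩ := by
  simp [coll, ha]

theorem extend {t : ℕ} (ht : 0 < t) (x c : α) (hxc : x < c)
    (h1 : ∀ y, x < y → c ≤ y) (h2 : ∀ y, y < c → y ≤ x)
    {R : Fin t → {y : α // y ≠ x} → {y : α // y ≠ x} → Prop} (hR : IsRealizer R) :
    IsRealizer (fun i a b => R i (coll x c hxc.ne' a) (coll x c hxc.ne' b) ∧
      (coll x c hxc.ne' a = coll x c hxc.ne' b → (a = x ∨ b ≠ x))) := by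
  set g := coll x c hxc.ne' with hg
  have gx : g x = ⟨c, hxc.ne'⟩ := coll_self x c hxc.ne'
  have gn : ∀ a (ha : a ≠ x), g a = ⟨a, ha⟩ := fun a ha => coll_ne x c hxc.ne' a ha
  refine ⟨fun i => ?_, fun a b => ?_⟩
  · have h := hR.1 i
    exact
      { refl := fun a => ⟨h.refl _, fun _ => em _⟩
        trans := by
          rintro a b d ⟨hab, hab'⟩ ⟨hbd, hbd'⟩
          refine ⟨h.trans _ _ _ hab hbd, fun had => ?_⟩
          have e1 : g a = g b := h.antisymm _ _ hab (had ▸ hbd)
          have e2 : g b = g d := e1.symm.trans had
          rcases hab' e1 with h3 | h3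
          · exact Or.inl h3
          · rcases hbd' e2 with h4 | h4
            · exact absurd h4 h3
            · exact Or.inr h4
        antisymm := by
          rintro a b ⟨hab, hab'⟩ ⟨hba, hba'⟩
          have e1 : g a = g b := h.antisymm _ _ hab hba
          rcases hab' e1 with h3 | h3
          · rcases hba' e1.symm with h4 | h4
            · rw [h3, h4]
            · exact absurd h3 h4
          · rcases hba' e1.symm with h4 | h4
            · exact absurd h4 h3
            · rw [gn a h4, gn b h3] at e1
              exact congrArg Subtype.val e1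
        total := by
          intro a b
          by_cases e : g a = g b
          · by_cases hax : a = x
            · left
              refine ⟨?_, fun _ => Or.inl hax⟩
              rw [e]
              exact h.refl _
            · right
              refine ⟨?_, fun _ => Or.inr hax⟩
              rw [e]
              exact h.refl _
          · rcases h.total (g a) (g b) with h3 | h3
            · exact Or.inl ⟨h3, fun e' => absurd e' e⟩
            · exact Or.inr ⟨h3, fun e' => absurd e'.symm e⟩ }
  · have key : (∀ i, R i (g a) (g b) ∧ (g a = g b → (a = x ∨ b ≠ x))) ↔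
        g a ≤ g b ∧ (g a = g b → (a = x ∨ b ≠ x)) := by
      constructor
      · intro h
        exact ⟨(hR.2 _ _).2 fun i => (h i).1, (h ⟨0, ht⟩).2⟩
      · rintro ⟨h3, h4⟩ i
        exact ⟨(hR.2 _ _).1 h3 i, h4⟩
    rw [key]
    by_cases ha : a = x
    · by_cases hb : b = x
      · subst ha
        subst hb
        simp
      · subst ha
        rw [gx, gn b hb]
        constructor
        · intro hab
          refine ⟨?_, fun _ => Or.inl rfl⟩
          exact h1 b (lt_of_le_of_ne hab (fun e => hb e.symm))
        · rintro ⟨h3, -⟩
          exact hxc.le.trans h3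
    · by_cases hb : b = x
      · subst hb
        rw [gx, gn a ha]
        constructor
        · intro hab
          refine ⟨(hab.trans hxc.le : a ≤ c), fun e => ?_⟩
          have e' : a = c := congrArg Subtype.val e
          rw [e'] at hab
          exact absurd hxc (not_lt_of_ge hab)
        · rintro ⟨h3, h4⟩
          have h3' : a ≤ c := h3
          have hne : a ≠ c := by
            intro e
            subst e
            rcases h4 rfl with h5 | h5
            · exact ha h5
            · exact h5 rfl
          exact h2 a (lt_of_le_of_ne h3' hne)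
      · rw [gn a ha, gn b hb]
        constructor
        · intro hab
          exact ⟨hab, fun _ => Or.inr hb⟩
        · rintro ⟨h3, -⟩
          exact h3

/-- The dimension does not drop when the lower element of an autonomous two-chain is deleted. -/
theorem no_twin (hirr : IrreduciblePoset α) (x c : α) (hxc : x < c)
    (h1 : ∀ y, x < y → c ≤ y) (h2 : ∀ y, y < c → y ≤ x) : False := by
  have hlt := hirr x
  have hpos : 0 < dimension α := lt_of_le_of_lt (Nat.zero_le _) hlt
  have hne : {t : ℕ | 0 < t ∧ ∃ R : Fin t → α → α → Prop, IsRealizer R}.Nonempty := by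
    by_contra hcon
    rw [Set.not_nonempty_iff_eq_empty] at hcon
    unfold dimension at hpos
    rw [hcon] at hpos
    simp at hpos
  obtain ⟨t, ht, R, hR⟩ := hne
  have hne' : {t : ℕ | 0 < t ∧ ∃ R : Fin t → {y : α // y ≠ x} → {y : α // y ≠ x} → Prop,
      IsRealizer R}.Nonempty := ⟨t, ht, _, restrict hR x⟩
  obtain ⟨hs, S, hS⟩ := Nat.sInf_mem hne'
  have : dimension α ≤ dimension {y : α // y ≠ x} :=
    Nat.sInf_le ⟨hs, _, extend hs x c hxc h1 h2 hS⟩
  exact absurd hlt (not_lt_of_ge this)

/-- In a finite irreducible poset every meet-irreducible element is the first element of a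
critical pair. -/
theorem first_of_meet [Finite α] (hirr : IrreduciblePoset α) (x : α) (hx : MeetIrreducible x) :
    ∃ b, CriticalPair x b := by
  by_contra hcon
  -- no element incomparable to `x` lies below all elements above `x`
  have hA : ∀ l : α, ¬ l ≤ x → ¬ x ≤ l → ¬ (∀ z, x < z → l < z) := by
    intro l
    induction l using (Finite.to_wellFoundedLT (α := α)).wf.induction with
    | h l ih =>
      intro hl1 hl2 hl3
      apply hcon
      refine ⟨l, hl2, hl1, hl3, fun z hz => ?_⟩
      by_contra hzx
      by_cases h3 : x ≤ z
      · exact hl2 (h3.trans hz.le)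
      · by_cases h4 : z ≤ x
        · rcases h4.lt_or_eq with h5 | h5
          · exact hzx h5
          · exact h3 h5.ge
        · exact ih z hz h4 h3 fun w hw => hz.trans (hl3 w hw)
  -- `x` is not the infimum of the set of elements above it
  have hB : ¬ IsGLB {z : α | x < z} x := fun h => lt_irrefl x (hx _ h)
  have hC : ∃ l : α, l ∈ lowerBounds {z : α | x < z} ∧ ¬ l ≤ x := by
    by_contra h
    push Not at h
    exact hB ⟨fun z hz => le_of_lt hz, fun l hl => h l hl⟩
  obtain ⟨c, hc1, hc2⟩ := hC
  have hxc : x < c := by
    by_contra hnot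
    have hxl : ¬ x ≤ c := by
      intro h
      rcases h.lt_or_eq with h5 | h5
      · exact hnot h5
      · exact hc2 h5.ge
    refine hA c hc2 hxl fun z hz => ?_
    rcases (hc1 hz).lt_or_eq with h5 | h5
    · exact h5
    · exact absurd (h5 ▸ hz.le) hxl
  refine no_twin hirr x c hxc (fun y hy => hc1 hy) (fun y hy => ?_)
  by_contra hyx
  by_cases h3 : x ≤ y
  · rcases h3.lt_or_eq with h5 | h5
    · exact absurd hy (not_lt_of_ge (hc1 h5))
    · exact hyx h5.ge
  · exact hA y hyx h3 fun z hz => lt_of_lt_of_le hy (hc1 hz)

/-- Reversing the order does not change which sizes of realizers occur. -/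
theorem realizer_rev {β : Type u} [PartialOrder β] (e : α ≃ β)
    (he : ∀ a b : α, a ≤ b ↔ e b ≤ e a) {t : ℕ} {R : Fin t → α → α → Prop}
    (hR : IsRealizer R) :
    IsRealizer (fun i a b => R i (e.symm b) (e.symm a)) := by
  refine ⟨fun i => ?_, fun a b => ?_⟩
  · have h := hR.1 i
    exact
      { refl := fun a => h.refl _
        trans := fun a b c hab hbc => h.trans _ _ _ hbc hab
        antisymm := fun a b hab hba => e.symm.injective (h.antisymm _ _ hba hab)
        total := fun a b => h.total _ _ }
  · rw [← hR.2, he, e.apply_symm_apply, e.apply_symm_apply]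

theorem dimension_rev {β : Type u} [PartialOrder β] (e : α ≃ β)
    (he : ∀ a b : α, a ≤ b ↔ e b ≤ e a) : dimension β = dimension α := by
  unfold dimension
  congr 1
  ext t
  constructor
  · rintro ⟨ht, R, hR⟩
    refine ⟨ht, _, realizer_rev e.symm (fun a b => ?_) hR⟩
    rw [he, e.apply_symm_apply, e.apply_symm_apply]
  · rintro ⟨ht, R, hR⟩
    exact ⟨ht, _, realizer_rev e he hR⟩

theorem irreducible_dual (hirr : IrreduciblePoset α) : IrreduciblePoset αᵒᵈ := by
  intro x
  have h1 : dimension αᵒᵈ = dimension α :=
    dimension_rev (OrderDual.toDual) (fun a b => Iff.rfl)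
  have h2 : dimension {y : αᵒᵈ // y ≠ x} = dimension {y : α // y ≠ OrderDual.ofDual x} :=
    dimension_rev (α := {y : α // y ≠ OrderDual.ofDual x}) (β := {y : αᵒᵈ // y ≠ x})
      (Equiv.refl _) (fun a b => Iff.rfl)
  rw [h1, h2]
  exact hirr (OrderDual.ofDual x)

/-- In a finite irreducible poset every join-irreducible element is the second element of a
critical pair. -/
theorem second_of_join [Finite α] (hirr : IrreduciblePoset α) (x : α) (hx : JoinIrreducible x) :
    ∃ a, CriticalPair a x := by
  have hx' : MeetIrreducible (α := αᵒᵈ) (OrderDual.toDual x) := fun S hS =>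
    hx (OrderDual.toDual ⁻¹' S) hS
  obtain ⟨b, hb1, hb2, hb3, hb4⟩ :=
    first_of_meet (α := αᵒᵈ) (irreducible_dual hirr) (OrderDual.toDual x) hx'
  exact ⟨OrderDual.ofDual b, hb1, hb2, fun z hz => hb4 (OrderDual.toDual z) hz,
    fun z hz => hb3 (OrderDual.toDual z) hz⟩

end aux

/-- Every doubly irreducible element of a finite irreducible poset is the first element of some
critical pair and the second element of some critical pair. -/
theorem result (α : Type u) [Finite α] [PartialOrder α] (hirr : IrreduciblePoset α)
    (x : α) (hjoin : JoinIrreducible x) (hmeet : MeetIrreducible x) :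
    (∃ b : α, CriticalPair x b) ∧ (∃ a : α, CriticalPair a x) :=
  ⟨first_of_meet hirr x hmeet, second_of_join hirr x hjoin⟩

end Pool.Agent.Results.MP_ba261c_co.DoublyIrreducible
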